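import Pool.Agent.H98.CE.Targets
import Pool.Agent.H95.Cop.Renewal

/-!
# Rows AS1, AS2 of cel
-/

set_option autoImplicit false

open MeasureTheory ProbabilityTheory Filter Topology
open Pool.Agent.H98.CE

namespace Pool.Agent.H91.CEL

/-- powers times exponentials -/
theorem pow_exp_tendsto (c : ℕ) {b : ℝ} (hb : 0 < b) :
    Tendsto (fun u : ℝ => u ^ c * Real.exp (-(b * u))) atTop (𝓝 0) := by
  have h1 : Tendsto (fun u : ℝ => b * u) atTop atTop := tendsto_id.const_mul_atTop hb
  have h2 := (Real.tendsto_pow_mul_exp_neg_atTop_nhds_zero c).comp h1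
  have h3 := h2.const_mul (b ^ c)⁻¹
  rw [mul_zero] at h3
  refine h3.congr ?_
  intro u
  simp only [Function.comp_apply]
  rw [mul_pow]
  have : b ^ c ≠ 0 := (pow_pos hb c).ne'
  field_simp

theorem pf_AS1 : T_AS1 := by
  intro c a b ha hb
  have hpos : ∀ᶠ α : ℝ in 𝓝[>] (0 : ℝ), 0 < α := eventually_mem_nhdsWithin
  have hone : ∀ᶠ α : ℝ in 𝓝[>] (0 : ℝ), α < 1 :=
    (eventually_lt_nhds (by norm_num : (0 : ℝ) < 1)).filter_mono nhdsWithin_le_nhds
  have hinv : Tendsto (fun α : ℝ => 1 / α) (𝓝[>] 0) atTop := by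
    simp only [one_div]
    exact tendsto_inv_nhdsGT_zero
  have h1 : ∀ᶠ α in 𝓝[>] (0 : ℝ), (1 / α) ^ c * Real.exp (-(b / α)) ≤ a := by
    have h2 := ((pow_exp_tendsto c hb).comp hinv).eventually (eventually_lt_nhds ha)
    filter_upwards [h2] with α h3
    simp only [Function.comp_apply] at h3
    rw [mul_one_div] at h3
    exact h3.le
  refine ⟨h1, ?_, ?_, ?_⟩
  · filter_upwards [h1, hpos, hone] with α h2 h3 h4
    refine le_trans ?_ h2
    apply mul_le_mul_of_nonneg_left _ (by positivity)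
    apply Real.exp_le_exp.2
    apply neg_le_neg
    apply div_le_div_of_nonneg_left hb.le (by positivity)
    nlinarith
  · have hsq : Tendsto (fun α : ℝ => 1 / Real.sqrt α) (𝓝[>] 0) atTop := by
      have h2 : Tendsto (fun α : ℝ => Real.sqrt (1 / α)) (𝓝[>] 0) atTop :=
        Real.tendsto_sqrt_atTop.comp hinv
      refine h2.congr ?_
      intro α
      rw [Real.sqrt_div zero_le_one, Real.sqrt_one]
    have h2 := ((pow_exp_tendsto (2 * c) hb).comp hsq).eventually (eventually_lt_nhds ha)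
    filter_upwards [h2, hpos] with α h3 h4
    simp only [Function.comp_apply] at h3
    rw [mul_one_div, pow_mul, div_pow, one_pow, Real.sq_sqrt h4.le] at h3
    exact h3.le
  · have h2 : Tendsto (fun α : ℝ => Real.exp (c * (Real.log α * α))) (𝓝[>] 0) (𝓝 1) := by
      have h3 : Tendsto (fun α : ℝ => Real.log α * α) (𝓝[>] 0) (𝓝 0) := by
        have h4 := tendsto_log_mul_rpow_nhdsGT_zero zero_lt_one
        simpa only [Real.rpow_one] using h4
      have h4 := (h3.const_mul (c : ℝ)).rexp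
      simpa using h4
    have h3 := h2.eventually (eventually_gt_nhds (by linarith : 1 - a < 1))
    have h4 := hinv.eventually (eventually_ge_atTop a)
    filter_upwards [h3, h4, hpos] with α h5 h6 h7
    refine ⟨?_, h6⟩
    rw [Real.rpow_def_of_pos h7]
    refine h5.le.trans (le_of_eq ?_)
    congr 1
    ring

/-- the telescoping inequality, first side -/
theorem tele_low (α : ℝ) (hα : 0 < α) (n : ℕ) (hn : 1 ≤ n) :
    (n : ℝ) ^ (-α) - ((n : ℝ) + 1) ^ (-α) ≤ α * (n : ℝ) ^ (-(1 + α)) := by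
  have hn0 : (0 : ℝ) < n := by exact_mod_cast hn
  have h1 : (n : ℝ) + 1 = n * (1 + 1 / n) := by field_simp
  have h2 : 0 < 1 + 1 / (n : ℝ) := by positivity
  have h3 : ((n : ℝ) + 1) ^ (-α) = (n : ℝ) ^ (-α) * (1 + 1 / (n : ℝ)) ^ (-α) := by
    rw [h1, Real.mul_rpow hn0.le h2.le]
  have h4 : (n : ℝ) ^ (-(1 + α)) = (n : ℝ) ^ (-α) * (1 / n) := by
    rw [show -(1 + α) = -α + (-1) by ring, Real.rpow_add hn0, Real.rpow_neg_one, one_div]
  have h5 : 1 - α * (1 / (n : ℝ)) ≤ (1 + 1 / (n : ℝ)) ^ (-α) := by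
    rw [Real.rpow_def_of_pos h2]
    have h6 := Real.add_one_le_exp (Real.log (1 + 1 / (n : ℝ)) * -α)
    have h7 : Real.log (1 + 1 / (n : ℝ)) ≤ 1 / n := by
      have := Real.log_le_sub_one_of_pos h2
      linarith
    nlinarith
  have h6 : 0 < (n : ℝ) ^ (-α) := Real.rpow_pos_of_pos hn0 _
  rw [h3, h4]
  nlinarith

theorem pf_AS2 : T_AS2 := by
  intro α hα
  refine ⟨?_, ?_, ?_⟩
  · intro a b ha hab
    induction b, hab using Nat.le_induction with
    | base => simp
    | succ b hb ih =>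
      rw [Finset.sum_Ico_succ_top hb]
      have h1 := tele_low α hα b (ha.trans hb)
      have h2 : ((b : ℝ) ^ (-α) - ((b : ℝ) + 1) ^ (-α)) / α ≤ (b : ℝ) ^ (-(1 + α)) := by
        rw [div_le_iff₀ hα]; linarith
      have h3 : ((a : ℝ) ^ (-α) - ((b + 1 : ℕ) : ℝ) ^ (-α)) / α =
          ((a : ℝ) ^ (-α) - (b : ℝ) ^ (-α)) / α + ((b : ℝ) ^ (-α) - ((b : ℝ) + 1) ^ (-α)) / α := by
        push_cast
        ring
      rw [h3]
      linarith
  · intro a b ha
    rcases Nat.lt_or_ge b a with h | hab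
    · rw [Finset.Ico_eq_empty (by omega), Finset.sum_empty]
      positivity
    · have key : ∑ s ∈ Finset.Ico a b, (s : ℝ) ^ (-(1 + α)) ≤
          (((a : ℝ) - 1) ^ (-α) - ((b : ℝ) - 1) ^ (-α)) / α := by
        induction b, hab using Nat.le_induction with
        | base => simp
        | succ b hb ih =>
          rw [Finset.sum_Ico_succ_top hb]
          have h1 := Pool.Agent.H95.Cop.rpow_tele1 α hα (b - 1) (by omega)
          have h2 : ((b - 1 : ℕ) : ℝ) = (b : ℝ) - 1 := by
            rw [Nat.cast_sub (by omega)]; simp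
          rw [h2, sub_add_cancel] at h1
          have h3 : (b : ℝ) ^ (-(1 + α)) ≤ (((b : ℝ) - 1) ^ (-α) - (b : ℝ) ^ (-α)) / α := by
            rw [le_div_iff₀ hα]; linarith
          have h4 : (((a : ℝ) - 1) ^ (-α) - (((b + 1 : ℕ) : ℝ) - 1) ^ (-α)) / α =
              (((a : ℝ) - 1) ^ (-α) - ((b : ℝ) - 1) ^ (-α)) / α +
                (((b : ℝ) - 1) ^ (-α) - (b : ℝ) ^ (-α)) / α := by
            push_cast
            rw [add_sub_cancel_right]
            ring
          rw [h4]
          linarith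
      refine key.trans ?_
      apply div_le_div_of_nonneg_right _ hα.le
      have ha' : (1 : ℝ) ≤ (a : ℝ) - 1 := by
        have : (2 : ℝ) ≤ a := by exact_mod_cast ha
        linarith
      have hb' : (0 : ℝ) ≤ (b : ℝ) - 1 := by
        have : (a : ℝ) ≤ b := by exact_mod_cast hab
        linarith
      have h1 : ((a : ℝ) - 1) ^ (-α) ≤ 1 := Real.rpow_le_one_of_one_le_of_nonpos ha' (by linarith)
      have h2 : 0 ≤ ((b : ℝ) - 1) ^ (-α) := Real.rpow_nonneg hb' _
      linarith
  · intro G hG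
    have hG0 : (1 : ℝ) ≤ G := by exact_mod_cast hG
    have key : ∀ N : ℕ, Real.log ((N : ℝ) + 3) - Real.log 3 ≤
        ∑ g ∈ Finset.Ico 2 (N + 2), 1 / ((g : ℝ) + 1) ∧
        ∑ g ∈ Finset.Ico 2 (N + 2), 1 / ((g : ℝ) + 1) ≤ Real.log ((N : ℝ) + 2) - Real.log 2 := by
      intro N
      induction N with
      | zero => simp
      | succ N ih =>
        rw [show N + 1 + 2 = (N + 2) + 1 by ring, Finset.sum_Ico_succ_top (by omega)]
        have e1 : (((N + 2 : ℕ) : ℝ) + 1) = (N : ℝ) + 3 := by push_cast; ring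
        have e2 : (((N + 1 : ℕ) : ℝ) + 3) = (N : ℝ) + 4 := by push_cast; ring
        have e3 : (((N + 1 : ℕ) : ℝ) + 2) = (N : ℝ) + 3 := by push_cast; ring
        rw [e1, e2, e3]
        have hN : (0 : ℝ) ≤ N := Nat.cast_nonneg N
        have h1 : Real.log ((N : ℝ) + 4) - Real.log ((N : ℝ) + 3) ≤ 1 / ((N : ℝ) + 3) := by
          rw [← Real.log_div (by positivity) (by positivity)]
          have := Real.log_le_sub_one_of_pos (x := ((N : ℝ) + 4) / ((N : ℝ) + 3)) (by positivity)
          have h2 : ((N : ℝ) + 4) / ((N : ℝ) + 3) - 1 = 1 / ((N : ℝ) + 3) := by field_simp; ring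
          linarith
        have h2 : 1 / ((N : ℝ) + 3) ≤ Real.log ((N : ℝ) + 3) - Real.log ((N : ℝ) + 2) := by
          have h3 := Real.log_le_sub_one_of_pos (x := ((N : ℝ) + 2) / ((N : ℝ) + 3)) (by positivity)
          rw [Real.log_div (by positivity) (by positivity)] at h3
          have h4 : ((N : ℝ) + 2) / ((N : ℝ) + 3) - 1 = -(1 / ((N : ℝ) + 3)) := by field_simp; ring
          linarith
        constructor <;> linarith [ih.1, ih.2]
    obtain ⟨k1, k2⟩ := key G
    constructor
    · have h1 : Real.log G ≤ Real.log ((G : ℝ) + 3) := Real.log_le_log (by linarith) (by linarith)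
      have h2 : Real.log 3 ≤ 2 := by
        have := Real.log_le_sub_one_of_pos (x := (3 : ℝ)) (by norm_num)
        linarith
      linarith
    · have h1 : Real.log ((G : ℝ) + 2) ≤ Real.log (2 * (3 / 2) * G) :=
        Real.log_le_log (by linarith) (by linarith)
      rw [mul_assoc, Real.log_mul (by norm_num) (by positivity),
        Real.log_mul (by norm_num) (by positivity)] at h1
      have h2 : Real.log (3 / 2) ≤ 1 := by
        have := Real.log_le_sub_one_of_pos (x := (3 / 2 : ℝ)) (by norm_num)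
        linarith
      linarith

end Pool.Agent.H91.CEL
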