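import Pool.Agent.H98.CE.Targets

/-!
# Row BL3 of cel
-/

set_option autoImplicit false

open MeasureTheory ProbabilityTheory Filter Topology
open Pool.Agent.H95 Pool.Agent.H95.Cop
open Pool.Agent.H55.CG (pz VV Mo)
open Pool.Agent.H98.CE

namespace Pool.Agent.H91.CEL

theorem Mo_nonneg (ν : Measure ℝ) (s : ℝ) : 0 ≤ Mo ν s :=
  integral_nonneg fun z => (Real.exp_pos _).le

/-- convexity with weights of any sum -/
theorem sum_rpow_le {ι : Type} (s : Finset ι) (c E : ι → ℝ) (hc : ∀ i ∈ s, 0 ≤ c i)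
    (hE : ∀ i ∈ s, 0 ≤ E i) {C p : ℝ} (hC : ∑ i ∈ s, c i = C) (hC0 : 0 < C) (hp : 1 ≤ p) :
    (∑ i ∈ s, c i * E i) ^ p ≤ C ^ (p - 1) * ∑ i ∈ s, c i * E i ^ p := by
  have h1 := Real.rpow_arith_mean_le_arith_mean_rpow s (fun i => c i / C) E
    (fun i hi => div_nonneg (hc i hi) hC0.le) (by rw [← Finset.sum_div, hC, div_self hC0.ne'])
    hE hp
  have h2 : ∑ i ∈ s, c i * E i = C * ∑ i ∈ s, c i / C * E i := by
    rw [Finset.mul_sum]
    apply Finset.sum_congr rfl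
    intro i _
    field_simp
  have h3 : ∑ i ∈ s, c i * E i ^ p = C * ∑ i ∈ s, c i / C * E i ^ p := by
    rw [Finset.mul_sum]
    apply Finset.sum_congr rfl
    intro i _
    field_simp
  have h4 : 0 ≤ ∑ i ∈ s, c i / C * E i :=
    Finset.sum_nonneg fun i hi => mul_nonneg (div_nonneg (hc i hi) hC0.le) (hE i hi)
  rw [h2, h3, Real.mul_rpow hC0.le h4, ← mul_assoc]
  have h5 : C ^ (p - 1) * C = C ^ p := by
    rw [← Real.rpow_add_one hC0.ne']; congr 1; ring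
  rw [h5]
  exact mul_le_mul_of_nonneg_left h1 (Real.rpow_nonneg hC0.le p)

theorem pf_BL3 (hAEX : T_AEX) (hAAM : T_AAM) (hTL1 : T_TL1) : T_BL3 := by
  intro K ν _ hexp ℓ α κ D aY aV S T hℓ hα hα1 hκ hκ1 haY haV hST hMo hD hMoD
  set p : ℝ := 2 / (1 + α) with hp
  have hα' : 0 < 1 + α := by linarith
  have hp1 : 1 ≤ p := by rw [hp, le_div_iff₀ hα']; linarith
  have hp2 : p ≤ 2 := by rw [hp, div_le_iff₀ hα']; linarith
  have hphalf : p / 2 = 1 / (1 + α) := by rw [hp]; ring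
  obtain ⟨s, c, hs, hcsum, hAA⟩ := hAEX K ℓ α κ aY aV S T hℓ hκ.le
  have hAA' := hAA hST haY
  set P := aY + aV with hP
  have hP1 : 1 ≤ P := by omega
  set C : ℝ := ∑ i ∈ s, c i with hC
  have hTP : (S + 1) * P ≤ T * P := Nat.mul_le_mul_right P hST
  have hlk : ∀ a ∈ Finset.Ico (S * P + aY) ((S + 1) * P),
      ∀ b ∈ Finset.Ico (T * P + aY) ((T + 1) * P), 0 < lk α κ (b + 1 - a) ∧
        lk α κ (b + 1 - a) ≤ 1 := by
    intro a ha b hb
    rw [Finset.mem_Ico] at ha hb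
    have h1 : 1 ≤ b + 1 - a := by omega
    have h2 : (1 : ℝ) ≤ ((b + 1 - a : ℕ) : ℝ) := by exact_mod_cast h1
    unfold lk
    have h3 : ((b + 1 - a : ℕ) : ℝ) ^ (-(1 + α)) ≤ 1 :=
      Real.rpow_le_one_of_one_le_of_nonpos h2 (by linarith)
    have h4 : 0 < ((b + 1 - a : ℕ) : ℝ) ^ (-(1 + α)) := Real.rpow_pos_of_pos (by linarith) _
    refine ⟨mul_pos hκ h4, ?_⟩
    calc κ * ((b + 1 - a : ℕ) : ℝ) ^ (-(1 + α)) ≤ 1 * 1 :=
          mul_le_mul hκ1 h3 h4.le zero_le_one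
      _ = 1 := one_mul 1
  have hcardS : (Finset.Ico (S * P + aY) ((S + 1) * P)).card = aV := by
    rw [Nat.card_Ico, add_mul, one_mul]; omega
  have hcardT : (Finset.Ico (T * P + aY) ((T + 1) * P)).card = aV := by
    rw [Nat.card_Ico, add_mul, one_mul]; omega
  have hCle : C ≤ (aV : ℝ) ^ 2 := by
    rw [hcsum]
    calc ∑ a ∈ Finset.Ico (S * P + aY) ((S + 1) * P),
          ∑ b ∈ Finset.Ico (T * P + aY) ((T + 1) * P), lk α κ (b + 1 - a)
        ≤ ∑ a ∈ Finset.Ico (S * P + aY) ((S + 1) * P),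
          ∑ b ∈ Finset.Ico (T * P + aY) ((T + 1) * P), (1 : ℝ) :=
          Finset.sum_le_sum fun a ha => Finset.sum_le_sum fun b hb => (hlk a ha b hb).2
      _ = (aV : ℝ) ^ 2 := by
          rw [Finset.sum_const, Finset.sum_const, hcardS, hcardT]
          simp
          ring
  have hC0 : 0 < C := by
    rw [hcsum]
    have hne1 : (Finset.Ico (S * P + aY) ((S + 1) * P)).Nonempty := by
      rw [← Finset.card_pos, hcardS]; omega
    have hne2 : (Finset.Ico (T * P + aY) ((T + 1) * P)).Nonempty := by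
      rw [← Finset.card_pos, hcardT]; omega
    exact Finset.sum_pos (fun a ha => Finset.sum_pos (fun b hb => (hlk a ha b hb).1) hne2) hne1
  have hc0 : ∀ i ∈ s, 0 ≤ c i := by
    rintro ⟨a, b, y, y', z, z'⟩ hi
    exact (hs a b y y' z z' hi).1
  set N := (T + 1 - S) * P with hN
  -- the terms
  have hterm : ∀ i ∈ s,
      Integrable (fun x : ℕ → ℝ => Real.exp (ey x i.2.2.1 i.2.2.2.1 i.2.2.2.2.1 i.2.2.2.2.2) ^ p)
        (iid ν) ∧
      ∫ x : ℕ → ℝ, Real.exp (ey x i.2.2.1 i.2.2.2.1 i.2.2.2.2.1 i.2.2.2.2.2) ^ p ∂(iid ν) ≤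
        D ^ N := by
    rintro ⟨a, b, y, y', z, z'⟩ hi
    obtain ⟨-, h1, h2, h3, h4, h5, h6, h7, h8, h9, h10⟩ := hs a b y y' z z' hi
    have hab : a + 1 ≤ b := by omega
    have hy'z : y' ≤ z := by
      have : (a + 1) * ℓ ≤ b * ℓ := Nat.mul_le_mul_right ℓ hab
      omega
    obtain ⟨hI, hv⟩ := (hTL1 ν hexp p 0 y y' z z' 0 0 h6 hy'z h9 le_rfl).1 (Or.inl (Nat.zero_le _))
    have e1 : ∀ x : ℕ → ℝ, Real.exp (ey x y y' z z') ^ p =
        Real.exp (p * ey x y y' z z' + 0 * H x 0 0) := by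
      intro x
      rw [← Real.exp_mul]
      congr 1
      ring
    show Integrable (fun x : ℕ → ℝ => Real.exp (ey x y y' z z') ^ p) (iid ν) ∧
      ∫ x : ℕ → ℝ, Real.exp (ey x y y' z z') ^ p ∂(iid ν) ≤ D ^ N
    simp only [e1]
    refine ⟨hI, ?_⟩
    rw [hv]
    have hM0 := Mo_nonneg ν (p / 2)
    have hM1 : Mo ν (p / 2) ≤ 1 := by rw [hphalf]; exact hMo
    have hMp := Mo_nonneg ν p
    have f1 : Mo ν (p / 2) ^ (y' - y + (z' - z)) ≤ 1 := pow_le_one₀ hM0 hM1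
    have f2 : Mo ν p ^ (z - y') ≤ D ^ N := by
      rcases le_total (Mo ν p) 1 with h | h
      · exact (pow_le_one₀ hMp h).trans (one_le_pow₀ hD)
      · have hzy : z - y' ≤ ℓ * N := by
          have g1 : z < (T + 1) * P * ℓ := by
            have : (b + 1) * ℓ ≤ (T + 1) * P * ℓ := Nat.mul_le_mul_right ℓ (by omega)
            omega
          have g2 : S * P * ℓ ≤ y' := by
            have : S * P * ℓ ≤ a * ℓ := Nat.mul_le_mul_right ℓ (by omega)
            omega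
          have g3 : ℓ * N + S * P * ℓ = (T + 1) * P * ℓ := by
            rw [hN]
            have : T + 1 = (T + 1 - S) + S := by omega
            calc ℓ * ((T + 1 - S) * P) + S * P * ℓ = ((T + 1 - S) + S) * P * ℓ := by ring
              _ = (T + 1) * P * ℓ := by rw [← this]
          omega
        calc Mo ν p ^ (z - y') ≤ Mo ν p ^ (ℓ * N) := pow_le_pow_right₀ h hzy
          _ = (Mo ν p ^ ℓ) ^ N := pow_mul _ _ _
          _ ≤ D ^ N := pow_le_pow_left₀ (pow_nonneg hMp ℓ) hMoD N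
    rw [Nat.sub_self, pow_zero, mul_one]
    calc Mo ν (p / 2) ^ (y' - y + (z' - z)) * Mo ν p ^ (z - y') ≤ 1 * D ^ N :=
          mul_le_mul f1 f2 (pow_nonneg hMp _) zero_le_one
      _ = D ^ N := one_mul _
  set g : (ℕ → ℝ) → ℝ := fun x => C ^ (p - 1) * ∑ i ∈ s, c i *
    Real.exp (ey x i.2.2.1 i.2.2.2.1 i.2.2.2.2.1 i.2.2.2.2.2) ^ p with hg
  have hgI : Integrable g (iid ν) := by
    apply Integrable.const_mul
    apply integrable_finset_sum
    intro i hi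
    exact (hterm i hi).1.const_mul _
  have hAAnn : ∀ x, 0 ≤ AA K ℓ α κ aY aV S T x := by
    intro x
    rw [hAA']
    exact Finset.sum_nonneg fun i hi => mul_nonneg (hc0 i hi) (Real.exp_pos _).le
  have hle : ∀ x, AA K ℓ α κ aY aV S T x ^ p ≤ g x := by
    intro x
    rw [hAA']
    exact sum_rpow_le s c _ hc0 (fun i _ => (Real.exp_pos _).le) rfl hC0 hp1
  have hI : Integrable (fun x : ℕ → ℝ => AA K ℓ α κ aY aV S T x ^ p) (iid ν) := by
    refine hgI.mono' ?_ ?_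
    · exact ((hAAM K ℓ α κ aY aV (T + 1) S T).1.pow_const p).aestronglyMeasurable
    · refine Filter.Eventually.of_forall fun x => ?_
      rw [Real.norm_of_nonneg (Real.rpow_nonneg (hAAnn x) p)]
      exact hle x
  refine ⟨hI, ?_⟩
  have hint : ∫ x, g x ∂(iid ν) ≤ C ^ p * D ^ N := by
    rw [hg, integral_const_mul, integral_finset_sum _ fun i hi => (hterm i hi).1.const_mul _]
    have h1 : ∑ i ∈ s, ∫ x : ℕ → ℝ, c i *
        Real.exp (ey x i.2.2.1 i.2.2.2.1 i.2.2.2.2.1 i.2.2.2.2.2) ^ p ∂(iid ν) ≤ C * D ^ N := by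
      rw [hC, Finset.sum_mul]
      apply Finset.sum_le_sum
      intro i hi
      rw [integral_const_mul]
      exact mul_le_mul_of_nonneg_left (hterm i hi).2 (hc0 i hi)
    have h2 : C ^ (p - 1) * (C * D ^ N) = C ^ p * D ^ N := by
      rw [← mul_assoc, ← Real.rpow_add_one hC0.ne']
      congr 2
      ring
    rw [← h2]
    exact mul_le_mul_of_nonneg_left h1 (Real.rpow_nonneg hC0.le _)
  have hVge : (1 : ℝ) ≤ (aV : ℝ) ^ 2 := by
    have : (1 : ℝ) ≤ aV := by exact_mod_cast haV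
    nlinarith
  have hCp : C ^ p ≤ (aV : ℝ) ^ 4 := by
    calc C ^ p ≤ ((aV : ℝ) ^ 2) ^ p := Real.rpow_le_rpow hC0.le hCle (by linarith)
      _ ≤ ((aV : ℝ) ^ 2) ^ (2 : ℝ) := Real.rpow_le_rpow_of_exponent_le hVge hp2
      _ = (aV : ℝ) ^ 4 := by
        rw [Real.rpow_two, ← pow_mul]
  calc ∫ x : ℕ → ℝ, AA K ℓ α κ aY aV S T x ^ p ∂(iid ν) ≤ ∫ x, g x ∂(iid ν) :=
        integral_mono hI hgI hle
    _ ≤ C ^ p * D ^ N := hint
    _ ≤ (aV : ℝ) ^ 4 * D ^ N :=
        mul_le_mul_of_nonneg_right hCp (pow_nonneg (by linarith) N)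

end Pool.Agent.H91.CEL
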