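import Pool.Agent.H98.CE.Targets

/-!
# Rows GLF, HLP of cel
-/

set_option autoImplicit false

open MeasureTheory ProbabilityTheory Filter Topology
open Pool.Agent.H95 Pool.Agent.H95.Cop
open Pool.Agent.H98.CE

namespace Pool.Agent.H91.CEL

theorem mem_gl_succ {G m i : ℕ} {L : List ℕ} :
    L ∈ gl G (m + 1) i ↔ ∃ g ∈ Finset.Ico 2 (G + 2), ∃ L' ∈ gl G m (i + g), L = i :: L' := by
  rw [gl, Finset.mem_biUnion]
  constructor
  · rintro ⟨g, hg, h⟩
    rw [Finset.mem_image] at h
    obtain ⟨L', h1, h2⟩ := h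
    exact ⟨g, hg, L', h1, h2.symm⟩
  · rintro ⟨g, hg, L', h1, h2⟩
    exact ⟨g, hg, Finset.mem_image.2 ⟨L', h1, h2.symm⟩⟩

theorem gl_props (G : ℕ) : ∀ m i : ℕ, ∀ L ∈ gl G m i,
    L.Pairwise (· < ·) ∧ L.length = m + 1 ∧ L.head? = some i ∧
    ∀ k ∈ L, i ≤ k ∧ k ≤ i + m * (G + 1) := by
  intro m
  induction m with
  | zero =>
    intro i L hL
    rw [gl, Finset.mem_singleton] at hL
    subst hL
    refine ⟨List.pairwise_singleton _ _, rfl, rfl, ?_⟩
    intro k hk
    rw [List.mem_singleton] at hk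
    omega
  | succ m ih =>
    intro i L hL
    obtain ⟨g, hg, L', hL', rfl⟩ := mem_gl_succ.1 hL
    rw [Finset.mem_Ico] at hg
    obtain ⟨h1, h2, h3, h4⟩ := ih (i + g) L' hL'
    refine ⟨?_, ?_, rfl, ?_⟩
    · rw [List.pairwise_cons]
      exact ⟨fun k hk => by have := (h4 k hk).1; omega, h1⟩
    · rw [List.length_cons, h2]
    · intro k hk
      rw [List.mem_cons] at hk
      rcases hk with rfl | hk
      · exact ⟨le_refl _, Nat.le_add_right _ _⟩
      · obtain ⟨h5, h6⟩ := h4 k hk
        refine ⟨by omega, ?_⟩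
        have : (m + 1) * (G + 1) = m * (G + 1) + (G + 1) := by ring
        omega

theorem gl_card (G : ℕ) : ∀ m i : ℕ, (gl G m i).card = G ^ m := by
  intro m
  induction m with
  | zero => intro i; rw [gl]; simp
  | succ m ih =>
    intro i
    rw [gl, Finset.card_biUnion]
    · have h1 : ∀ g ∈ Finset.Ico 2 (G + 2),
          ((gl G m (i + g)).image (List.cons i)).card = G ^ m := by
        intro g _
        rw [Finset.card_image_of_injective _ (List.cons_injective), ih]
      rw [Finset.sum_congr rfl h1, Finset.sum_const, Nat.card_Ico, smul_eq_mul, pow_succ]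
      have : G + 2 - 2 = G := by omega
      rw [this, mul_comm]
    · intro g _ g' _ hne
      show Disjoint _ _
      rw [Finset.disjoint_left]
      intro L h1 h2
      rw [Finset.mem_image] at h1 h2
      obtain ⟨L1, h3, h4⟩ := h1
      obtain ⟨L2, h5, h6⟩ := h2
      have h7 : L1 = L2 := List.cons_injective (h4.trans h6.symm)
      have h8 := (gl_props G m _ _ h3).2.2.1
      have h9 := (gl_props G m _ _ h5).2.2.1
      rw [h7, h9] at h8
      have := Option.some.inj h8
      omega

theorem nodup_of_lt {L : List ℕ} (h : L.Pairwise (· < ·)) : L.Nodup :=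
  h.imp (fun hab => hab.ne)

theorem pf_GLF : T_GLF := by
  intro G m i
  refine ⟨gl_card G m i, ?_⟩
  intro L hL
  obtain ⟨h1, h2, h3, h4⟩ := gl_props G m i L hL
  refine ⟨h1, h2, h3, ?_, h4⟩
  rw [List.toFinset_card_of_nodup (nodup_of_lt h1), h2]

theorem cw_eq_list (f r : ℕ → ℝ) : ∀ L : List ℕ, L ≠ [] → cw f r L = Pool.Agent.H98.CE.lp r L * (L.map f).prod := by
  intro L
  induction L with
  | nil => intro h; exact absurd rfl h
  | cons i L ih =>
    intro _
    cases L with
    | nil => simp [cw, Pool.Agent.H98.CE.lp]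
    | cons j L =>
      rw [cw, Pool.Agent.H98.CE.lp, ih (by simp)]
      simp only [List.map_cons, List.prod_cons]
      ring

theorem lp_nonneg (r : ℕ → ℝ) (hr : ∀ d, 0 ≤ r d) : ∀ L : List ℕ, 0 ≤ Pool.Agent.H98.CE.lp r L := by
  intro L
  induction L with
  | nil => simp [Pool.Agent.H98.CE.lp]
  | cons i L ih =>
    cases L with
    | nil => simp [Pool.Agent.H98.CE.lp]
    | cons j L =>
      rw [Pool.Agent.H98.CE.lp]
      exact mul_nonneg (hr _) ih

theorem lp_le_one (r : ℕ → ℝ) (hr : ∀ d, 0 ≤ r d) (hr1 : ∀ d, r d ≤ 1) :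
    ∀ L : List ℕ, Pool.Agent.H98.CE.lp r L ≤ 1 := by
  intro L
  induction L with
  | nil => simp [Pool.Agent.H98.CE.lp]
  | cons i L ih =>
    cases L with
    | nil => simp [Pool.Agent.H98.CE.lp]
    | cons j L =>
      rw [Pool.Agent.H98.CE.lp]
      exact mul_le_one₀ (hr1 _) (lp_nonneg r hr _) ih

theorem pf_HLP (hGLF : T_GLF) : T_HLP := by
  intro G m i L hL
  obtain ⟨h1, h2, h3, h4, h5⟩ := (hGLF G m i).2 L hL
  have hnd := nodup_of_lt h1
  refine ⟨?_, ?_, ?_, ?_⟩
  · intro n ℓ thr M lab x hM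
    have hmem : ∀ k, k ∈ hb n ℓ thr M lab x ↔ k < M ∧ thr ≤ lab (shift (k * (n * ℓ)) x) := by
      intro k
      unfold hb
      rw [List.mem_filter, List.mem_range, decide_eq_true_iff]
    constructor
    · intro h k hk
      rw [List.mem_toFinset, ← h, hmem]
      exact ⟨fun h => h.2, fun h => ⟨hk, h⟩⟩
    · intro h
      apply List.Pairwise.eq_of_mem_iff (r := (· < ·)) _ h1
      · intro k
        rw [hmem]
        constructor
        · rintro ⟨h6, h7⟩
          exact List.mem_toFinset.1 ((h k h6).2 h7)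
        · intro hk
          have h6 : k < M := lt_of_le_of_lt (h5 k hk).2 hM
          exact ⟨h6, (h k h6).1 (List.mem_toFinset.2 hk)⟩
      · unfold hb
        exact List.Pairwise.filter _ (List.pairwise_lt_range)
  · intro f r
    rw [List.prod_toFinset f hnd]
    apply cw_eq_list
    intro h
    rw [h] at h2
    simp at h2
  · intro g
    rw [List.sum_toFinset g hnd]
  · intro r hr
    exact ⟨lp_nonneg r hr L, fun hr1 => lp_le_one r hr hr1 L⟩

end Pool.Agent.H91.CEL
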