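import Pool.Agent.H98.CE.Targets

/-!
# Rows NA3, NA4, NA1, CVM of cel
-/

set_option autoImplicit false

open MeasureTheory ProbabilityTheory Filter Topology
open Pool.Agent.H98.CE

namespace Pool.Agent.H91.CEL

theorem pf_NA3 : T_NA3 := by
  intro a b q ha hq
  have hq0 : q 0 = 1 := by rw [hq]; simp
  have hqs : ∀ l, q (l + 1) = q l * (1 - a l) := by
    intro l
    rw [hq, hq, Finset.prod_range_succ]
  have hqp : ∀ l, 0 < q l := by
    intro l
    induction l with
    | zero => rw [hq0]; exact one_pos
    | succ l ih => rw [hqs]; exact mul_pos ih (by linarith [(ha l).2.1])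
  have hrec : ∀ l, q l * a l = q (l + 1) * a (l + 1) + q (l + 1) * b l := by
    intro l
    have h := (ha l).2.2.2
    rw [hqs]
    calc q l * a l = q l * ((1 - a l) * (a (l + 1) + b l)) := by rw [← h]
      _ = _ := by ring
  have hg0 : ∀ l, 0 ≤ q l * a l := fun l => mul_nonneg (hqp l).le (ha l).1
  have hgs : ∀ L, ∑ l ∈ Finset.range L, q l * a l = 1 - q L := by
    intro L
    induction L with
    | zero => rw [hq0]; simp
    | succ L ih => rw [Finset.sum_range_succ, ih, hqs]; ring
  refine ⟨?_, ?_, ?_⟩
  · intro L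
    induction L with
    | zero => rw [hq0]; simp
    | succ L ih =>
      rw [Finset.sum_range_succ]
      have := hrec L
      linarith
  · intro L
    have h1 : ∑ l ∈ Finset.range L, ((l : ℝ) + 1) * (b l * q (l + 1)) =
        ∑ l ∈ Finset.range L, q l * a l - L * (q L * a L) := by
      induction L with
      | zero => simp
      | succ L ih =>
        rw [Finset.sum_range_succ, Finset.sum_range_succ, ih]
        have := hrec L
        push_cast
        have h2 : b L * q (L + 1) = q L * a L - q (L + 1) * a (L + 1) := by linarith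
        rw [h2]; ring
    rw [h1, hgs]
    have h3 : 0 ≤ (L : ℝ) * (q L * a L) := mul_nonneg (Nat.cast_nonneg L) (hg0 L)
    have h4 := hqp L
    linarith
  · have hs : Summable (fun l => q l * a l) := by
      apply summable_of_sum_range_le (c := 1) hg0
      intro n
      rw [hgs]
      linarith [hqp n]
    exact hs.tendsto_atTop_zero

theorem pf_NA4 : T_NA4 := by
  intro A a b ha hA hT c hc h0 l
  induction l with
  | zero => exact h0
  | succ l ih =>
    have hz1 : ∀ᶠ z in 𝓝[<] (1 : ℝ), z < 1 := eventually_mem_nhdsWithin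
    have hz0 : ∀ᶠ z in 𝓝[<] (1 : ℝ), 0 < z :=
      (eventually_gt_nhds (by norm_num : (0 : ℝ) < 1)).filter_mono nhdsWithin_le_nhds
    have hal : 0 < a l := by
      rcases (ha l).1.lt_or_eq with h | h
      · exact h
      · exfalso
        obtain ⟨z, h1, h2, h3⟩ := (ih.and (hz1.and hz0)).exists
        have h4 := hA l z h3.le h2
        have h5 : A l z = 0 := le_antisymm (by rw [h]; exact h4.2.1) h4.1
        rw [← h, h5] at h1
        nlinarith
    have ha1 := (ha l).2.1
    have hlim : Tendsto (fun z => c / ((1 - a l) * (1 - A l z)) - a l / (1 - a l)) (𝓝[<] 1)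
        (𝓝 (c / ((1 - a l) * (1 - a l)) - a l / (1 - a l))) := by
      apply Tendsto.sub_const
      apply Tendsto.div tendsto_const_nhds
      · exact (tendsto_const_nhds.sub (hT l)).const_mul _
      · have : 0 < 1 - a l := by linarith
        positivity
    have hbr : c < c / ((1 - a l) * (1 - a l)) - a l / (1 - a l) := by
      have h1 : 0 < 1 - a l := by linarith
      have h2 : c / ((1 - a l) * (1 - a l)) - a l / (1 - a l) =
          (c - a l * (1 - a l)) / ((1 - a l) * (1 - a l)) := by
        field_simp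
      rw [h2, lt_div_iff₀ (by positivity)]
      nlinarith [mul_pos hal h1, mul_pos hal (sub_pos.2 hc)]
    have hev := hlim.eventually (eventually_gt_nhds hbr)
    filter_upwards [ih, hz1, hz0, hev] with z h1 h2 h3 h4
    obtain ⟨hA0, hA1, hA2⟩ := hA l z h3.le h2
    obtain ⟨hB0, hB1, -⟩ := hA (l + 1) z h3.le h2
    have hr := (ha l).2.2.2
    have p1 : 0 < 1 - a l := by linarith
    have p2 : 0 < 1 - A l z := by linarith
    have e1 : z * (a (l + 1) - A (l + 1) z) + (1 - z) * (a l / (1 - a l)) =
        (a l - A l z) / ((1 - a l) * (1 - A l z)) := by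
      have e2 : a l / (1 - a l) = a (l + 1) + b l := by
        rw [div_eq_iff p1.ne']; linarith
      have e3 : A l z / (1 - A l z) = z * (A (l + 1) z + b l) := by
        rw [div_eq_iff p2.ne']; linarith
      have e4 : (a l - A l z) / ((1 - a l) * (1 - A l z)) = a l / (1 - a l) - A l z / (1 - A l z) := by
        field_simp
        ring
      rw [e4, e2, e3]; ring
    have e5 : c * (1 - z) / ((1 - a l) * (1 - A l z)) ≤ (a l - A l z) / ((1 - a l) * (1 - A l z)) := by
      apply div_le_div_of_nonneg_right h1 (by positivity)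
    have e6 : (1 - z) * (c / ((1 - a l) * (1 - A l z)) - a l / (1 - a l)) ≤
        z * (a (l + 1) - A (l + 1) z) := by
      have : (1 - z) * (c / ((1 - a l) * (1 - A l z))) = c * (1 - z) / ((1 - a l) * (1 - A l z)) := by
        ring
      rw [mul_sub, this]
      linarith
    have e7 : (1 - z) * c ≤ (1 - z) * (c / ((1 - a l) * (1 - A l z)) - a l / (1 - a l)) :=
      mul_le_mul_of_nonneg_left h4.le (by linarith)
    have e8 : z * (a (l + 1) - A (l + 1) z) ≤ a (l + 1) - A (l + 1) z := by
      have : 0 ≤ a (l + 1) - A (l + 1) z := by linarith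
      nlinarith
    linarith

theorem cvm_nonneg (t : ℕ → ℝ) (thr : ℕ) (ht : ∀ j, 0 ≤ t j) : ∀ m s, 0 ≤ cv t thr m s := by
  intro m
  induction m with
  | zero => intro s; unfold cv; split_ifs <;> norm_num
  | succ m ih =>
    intro s
    unfold cv
    exact Finset.sum_nonneg fun j _ => mul_nonneg (ht j) (ih _)

theorem pf_CVM : T_CVM := by
  intro t t' thr m s ht
  refine ⟨cvm_nonneg t thr ht m s, ?_, ?_⟩
  · intro c
    induction m generalizing s with
    | zero => unfold cv; simp
    | succ m ih =>
      unfold cv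
      rw [Finset.mul_sum]
      apply Finset.sum_congr rfl
      intro j _
      rw [ih]; ring
  · intro h
    induction m generalizing s with
    | zero => exact le_of_eq rfl
    | succ m ih =>
      unfold cv
      apply Finset.sum_le_sum
      intro j hj
      have h1 := h j (Finset.mem_Icc.1 hj).1
      have h2 := ih (s - j)
      exact mul_le_mul h1 h2 (cvm_nonneg t thr ht m _) ((ht j).trans h1)

/-! ## NA1 -/

section
variable {f : ℕ → ℝ}

theorem pw_nonneg (hf : ∀ U, 0 ≤ f U) : ∀ m s, 0 ≤ pw f m s := by
  intro m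
  induction m with
  | zero => intro s; unfold pw; split_ifs <;> norm_num
  | succ m ih =>
    intro s
    unfold pw
    exact Finset.sum_nonneg fun j _ => mul_nonneg (hf j) (ih _)

theorem pw_zero (h0 : f 0 = 0) : ∀ m s, s < m → pw f m s = 0 := by
  intro m
  induction m with
  | zero => intro s hs; omega
  | succ m ih =>
    intro s hs
    unfold pw
    apply Finset.sum_eq_zero
    intro j hj
    rw [Finset.mem_range] at hj
    rcases Nat.eq_zero_or_pos j with rfl | hj0
    · rw [h0, zero_mul]
    · rw [ih (s - j) (by omega), mul_zero]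

theorem pw_one (h0 : f 0 = 0) : pw f 1 1 = f 1 := by
  unfold pw
  rw [Finset.sum_range_succ, Finset.sum_range_succ, Finset.sum_range_zero, h0]
  unfold pw
  simp

theorem pw_hasSum (hf : ∀ U, 0 ≤ f U) {z : ℝ} (hz : 0 ≤ z)
    (hs : Summable (fun U => f U * z ^ U)) :
    ∀ m, HasSum (fun s => pw f m s * z ^ s) ((∑' U, f U * z ^ U) ^ m) := by
  intro m
  induction m with
  | zero =>
    have h1 : (fun s => pw f 0 s * z ^ s) = fun s => if s = 0 then (1 : ℝ) else 0 := by
      funext s
      unfold pw
      split_ifs with h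
      · rw [h]; simp
      · simp
    rw [h1, pow_zero]
    exact hasSum_ite_eq 0 1
  | succ m ih =>
    have hn1 : Summable (fun U => ‖f U * z ^ U‖) := by
      refine hs.congr ?_
      intro U
      rw [Real.norm_of_nonneg (mul_nonneg (hf U) (pow_nonneg hz U))]
    have hn2 : Summable (fun s => ‖pw f m s * z ^ s‖) := by
      refine ih.summable.congr ?_
      intro s
      rw [Real.norm_of_nonneg (mul_nonneg (pw_nonneg hf m s) (pow_nonneg hz s))]
    have e1 : (fun s => pw f (m + 1) s * z ^ s) = fun s =>
        ∑ k ∈ Finset.range (s + 1), (f k * z ^ k) * (pw f m (s - k) * z ^ (s - k)) := by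
      funext s
      rw [pw, Finset.sum_mul]
      apply Finset.sum_congr rfl
      intro k hk
      rw [Finset.mem_range] at hk
      have : z ^ s = z ^ k * z ^ (s - k) := by rw [← pow_add]; congr 1; omega
      rw [this]; ring
    have h2 := summable_norm_sum_mul_range_of_summable_norm hn1 hn2
    have h3 := tsum_mul_tsum_eq_tsum_sum_range_of_summable_norm hn1 hn2
    rw [ih.tsum_eq] at h3
    rw [e1, pow_succ', h3]
    exact h2.of_norm.hasSum

end

theorem pf_NA1 : T_NA1 := by
  intro f g η z hη hf h0 hs hle hz0 hz1 hg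
  have hsz : Summable (fun U => f U * z ^ U) := by
    refine Summable.of_nonneg_of_le (fun U => mul_nonneg (hf U) (pow_nonneg hz0 U)) ?_ hs
    intro U
    exact mul_le_of_le_one_right (hf U) (pow_le_one₀ hz0 hz1.le)
  set F := ∑' U, f U * z ^ U with hF
  have hF0 : 0 ≤ F := tsum_nonneg fun U => mul_nonneg (hf U) (pow_nonneg hz0 U)
  have hFz : F ≤ z * ∑' U, f U := by
    rw [← tsum_mul_left]
    apply Summable.tsum_le_tsum _ hsz (hs.mul_left z)
    intro U
    rcases Nat.eq_zero_or_pos U with rfl | hU
    · rw [h0]; simp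
    · obtain ⟨k, rfl⟩ : ∃ k, U = k + 1 := ⟨U - 1, by omega⟩
      rw [pow_succ]
      have h1 : z ^ k ≤ 1 := pow_le_one₀ hz0 hz1.le
      have h2 := hf (k + 1)
      have h3 : 0 ≤ f (k + 1) * z := mul_nonneg h2 hz0
      nlinarith
  have hηF : η * F < 1 := by
    have h1 : η * F ≤ η * (z * ∑' U, f U) := mul_le_mul_of_nonneg_left hFz hη.le
    have h2 : η * (z * ∑' U, f U) = z * (η * ∑' U, f U) := by ring
    rw [h2] at h1
    have h3 : z * (η * ∑' U, f U) ≤ z * 1 := mul_le_mul_of_nonneg_left hle hz0
    linarith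
  have hηF0 : 0 ≤ η * F := mul_nonneg hη.le hF0
  have hg0 : g 0 = 0 := by rw [hg]; simp
  rcases hz0.lt_or_eq with hzp | hze
  · -- the double series
    set h : ℕ → ℕ → ℝ := fun m s => η ^ m * (pw f (m + 1) s * z ^ s) with hh
    have hnn : ∀ m s, 0 ≤ h m s := fun m s =>
      mul_nonneg (pow_nonneg hη.le m) (mul_nonneg (pw_nonneg hf _ _) (pow_nonneg hz0 s))
    have hrow : ∀ m, HasSum (h m) (F * (η * F) ^ m) := by
      intro m
      have h1 := (pw_hasSum hf hz0 hsz (m + 1)).mul_left (η ^ m)
      have h2 : η ^ m * F ^ (m + 1) = F * (η * F) ^ m := by rw [mul_pow, pow_succ]; ring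
      rw [← h2]
      exact h1
    have hgeo : HasSum (fun m => F * (η * F) ^ m) (F * (1 - η * F)⁻¹) :=
      (hasSum_geometric_of_lt_one hηF0 hηF).mul_left F
    have hsum2 : Summable (fun p : ℕ × ℕ => h p.1 p.2) := by
      rw [summable_prod_of_nonneg (fun p => hnn p.1 p.2)]
      refine ⟨fun m => (hrow m).summable, ?_⟩
      refine hgeo.summable.congr ?_
      intro m
      exact (hrow m).tsum_eq.symm
    have htot : HasSum (fun p : ℕ × ℕ => h p.1 p.2) (F * (1 - η * F)⁻¹) := by
      have h1 := hsum2.hasSum
      have h2 := h1.prod_fiberwise hrow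
      rw [hgeo.unique h2]
      exact h1
    have hsw : HasSum (fun p : ℕ × ℕ => h p.2 p.1) (F * (1 - η * F)⁻¹) := by
      have := (Equiv.prodComm ℕ ℕ).hasSum_iff.2 htot
      exact this
    have hcol : ∀ s, HasSum (fun m => h m s)
        (∑ m ∈ Finset.range s, h m s) := by
      intro s
      apply hasSum_sum_of_ne_finset_zero
      intro m hm
      rw [Finset.mem_range, not_lt] at hm
      show η ^ m * (pw f (m + 1) s * z ^ s) = 0
      rw [pw_zero h0 (m + 1) s (by omega)]
      ring
    have hS : HasSum (fun s => ∑ m ∈ Finset.range s, h m s) (F * (1 - η * F)⁻¹) :=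
      hsw.prod_fiberwise hcol
    have hS1 : HasSum (fun s => ∑ m ∈ Finset.range (s + 1), h m (s + 1)) (F * (1 - η * F)⁻¹) := by
      have h1 := (hasSum_nat_add_iff (f := fun s => ∑ m ∈ Finset.range s, h m s)
        (g := F * (1 - η * F)⁻¹) 1).2
      apply h1
      simpa using hS
    have hterm : ∀ s, ∑ m ∈ Finset.range (s + 1), h m (s + 1) =
        z * (g s * z ^ s) + (if s = 0 then f 1 * z else 0) := by
      intro s
      rcases Nat.eq_zero_or_pos s with rfl | hs0
      · rw [hg0, if_pos rfl, Finset.sum_range_succ, Finset.sum_range_zero]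
        show 0 + η ^ 0 * (pw f (0 + 1) (0 + 1) * z ^ (0 + 1)) = _
        rw [zero_add, zero_add, pw_one h0]
        simp
      · rw [if_neg (by omega), add_zero, hg, if_neg (by omega), Finset.sum_mul, Finset.mul_sum]
        apply Finset.sum_congr rfl
        intro m _
        show η ^ m * (pw f (m + 1) (s + 1) * z ^ (s + 1)) = _
        rw [pow_succ]; ring
    have hS2 : HasSum (fun s => z * (g s * z ^ s)) (F * (1 - η * F)⁻¹ - f 1 * z) := by
      have h1 : HasSum (fun s : ℕ => if s = 0 then f 1 * z else 0) (f 1 * z) := hasSum_ite_eq 0 _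
      have h2 := hS1.sub h1
      have e : (fun s => z * (g s * z ^ s)) = fun s =>
          (∑ m ∈ Finset.range (s + 1), h m (s + 1)) - (if s = 0 then f 1 * z else 0) := by
        funext s
        rw [hterm s]; ring
      rw [e]
      exact h2
    have hS3 : HasSum (fun s => g s * z ^ s) ((F * (1 - η * F)⁻¹ - f 1 * z) / z) := by
      have h1 := hS2.mul_left z⁻¹
      have h2 : z⁻¹ * (F * (1 - η * F)⁻¹ - f 1 * z) = (F * (1 - η * F)⁻¹ - f 1 * z) / z := by
        rw [mul_comm, div_eq_mul_inv]
      rw [h2] at h1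
      have h3 : (fun s => z⁻¹ * (z * (g s * z ^ s))) = fun s => g s * z ^ s := by
        funext s
        rw [← mul_assoc, inv_mul_cancel₀ hzp.ne', one_mul]
      rw [h3] at h1
      exact h1
    refine ⟨hS3.summable, hηF, ?_⟩
    rw [hS3.tsum_eq]
    have hne : (1 - η * F) ≠ 0 := by linarith
    field_simp
    ring
  · have hz : ∀ (u : ℕ → ℝ), u 0 = 0 → ∀ U, u U * z ^ U = 0 := by
      intro u hu U
      rcases Nat.eq_zero_or_pos U with rfl | hU
      · rw [hu, zero_mul]
      · rw [← hze, zero_pow (by omega), mul_zero]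
    have hFe : F = 0 := by
      rw [hF]
      simp only [hz f h0, tsum_zero]
    refine ⟨?_, hηF, ?_⟩
    · simp only [hz g hg0]
      exact summable_zero
    · rw [hFe, ← hze]; ring

end Pool.Agent.H91.CEL
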