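import Pool.Agent.H98.CE.Targets

/-!
# Row NUM of cel
-/

set_option autoImplicit false

open MeasureTheory ProbabilityTheory Filter Topology
open Pool.Agent.H98.CE

namespace Pool.Agent.H91.CEL

theorem pf_NUM (hBUP : T_BUP) (hNU2 : T_NU2) (hNUS : T_NUS) (hNUC : T_NUC) : T_NUM := by
  intro d hd hd2
  obtain ⟨η, hη, N, hN⟩ := hNU2 d hd hd2
  set f : ℕ → ℝ := fun U => Real.exp (-d * (U + 4) * η) / (U + 4) with hf
  have hf0 : ∀ U, 0 ≤ f U := fun U => by
    show 0 ≤ Real.exp (-d * (U + 4) * η) / (U + 4)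
    positivity
  obtain ⟨l, N', h1⟩ := hBUP f η hη hf0 ⟨N, hN⟩
  set J := N' + l + 3 with hJ
  set ms := N' + l + 1 with hms
  have hms1 : 1 ≤ ms := by omega
  have hnn : ∀ j, 0 ≤ tl d η 1 J ms l j := fun j => (hNUC d η J ms l j).2 hη.le 1 zero_le_one
  have hFl0 : Fl η f l 0 = 0 := by
    cases l with
    | zero => simp [Fl]
    | succ l => simp [Fl]
  have hle : ∑ U ∈ Finset.range N', Fl η f l U ≤
      ∑ j ∈ Finset.Icc (l + 3) (ms ^ l * J), tl d η 1 J ms l j := by
    have e1 : ∑ U ∈ Finset.range N', Fl η f l U =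
        ∑ U ∈ (Finset.range N').filter (fun U => 1 ≤ U), Fl η f l U := by
      symm
      apply Finset.sum_subset (Finset.filter_subset _ _)
      intro U hU hU2
      have : U = 0 := by
        by_contra hne
        exact hU2 (Finset.mem_filter.2 ⟨hU, by omega⟩)
      rw [this, hFl0]
    have e2 : ∑ U ∈ (Finset.range N').filter (fun U => 1 ≤ U), Fl η f l U =
        ∑ U ∈ (Finset.range N').filter (fun U => 1 ≤ U), tl d η 1 J ms l (U + l + 2) := by
      apply Finset.sum_congr rfl
      intro U hU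
      rw [Finset.mem_filter, Finset.mem_range] at hU
      exact (hNUS d η J ms l U hU.2 (by omega) (by omega)).symm
    have e3 : ∑ U ∈ (Finset.range N').filter (fun U => 1 ≤ U), tl d η 1 J ms l (U + l + 2) =
        ∑ j ∈ ((Finset.range N').filter (fun U => 1 ≤ U)).image (fun U => U + l + 2),
          tl d η 1 J ms l j := by
      rw [Finset.sum_image]
      intro a _ b _ hab
      have : a + l + 2 = b + l + 2 := hab
      omega
    rw [e1, e2, e3]
    apply Finset.sum_le_sum_of_subset_of_nonneg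
    · intro j hj
      rw [Finset.mem_image] at hj
      obtain ⟨U, hU, rfl⟩ := hj
      rw [Finset.mem_filter, Finset.mem_range] at hU
      rw [Finset.mem_Icc]
      refine ⟨by omega, ?_⟩
      have h2 : 1 ≤ ms ^ l := Nat.one_le_pow _ _ hms1
      have h3 : J ≤ ms ^ l * J := Nat.le_mul_of_pos_left _ h2
      omega
    · intro j _ _
      exact hnn j
  have hcont : Continuous (fun e : ℝ => e * η * ∑ j ∈ Finset.Icc (l + 3) (ms ^ l * J),
      tl d η e J ms l j) := by
    apply Continuous.mul
    · fun_prop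
    · exact continuous_finset_sum _ fun j _ => (hNUC d η J ms l j).1
  have hat : 1 < (fun e : ℝ => e * η * ∑ j ∈ Finset.Icc (l + 3) (ms ^ l * J),
      tl d η e J ms l j) 1 := by
    show 1 < 1 * η * _
    rw [one_mul]
    exact lt_of_lt_of_le h1 (mul_le_mul_of_nonneg_left hle hη.le)
  have hev := hcont.continuousAt.eventually (eventually_gt_nhds hat)
  rw [Metric.eventually_nhds_iff] at hev
  obtain ⟨ε, hε, hev⟩ := hev
  refine ⟨η, hη, l, ms, J, hms1, max (1 / 2) (1 - ε / 2), ?_, ?_, ?_⟩
  · exact lt_max_of_lt_left (by norm_num)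
  · exact max_lt (by norm_num) (by linarith)
  · intro e he he1
    apply hev
    have h2 : 1 - ε / 2 < e := lt_of_le_of_lt (le_max_right _ _) he
    rw [Real.dist_eq, abs_lt]
    constructor <;> linarith

end Pool.Agent.H91.CEL
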